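import Pool.Agent.H877R3.HSC.Decode

/-!
# Primitive quasivarieties generated by a finite Heyting algebra: the finite criterion
-/

set_option autoImplicit false

namespace Pool.Agent.Q217.Prim

open Pool.Agent.H877R3.HSC RA

/-- A quasi-identity: finitely many equations between terms imply an equation between terms. Terms in
the signature of Heyting algebras are formulas (`Fm`), with `1` written as `0 → 0`. -/
structure QId where
  prem : List (Fm × Fm)
  concl : Fm × Fm

/-- The quasi-identity holds in the Heyting algebra `H`. -/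
def QId.Holds (q : QId) (H : Type) [HeytingAlgebra H] : Prop :=
  ∀ v : ℕ → H, (∀ p ∈ q.prem, p.1.eval v = p.2.eval v) → q.concl.1.eval v = q.concl.2.eval v

/-- The identity `e.1 = e.2` holds in the Heyting algebra `H`. -/
def IdHolds (e : Fm × Fm) (H : Type) [HeytingAlgebra H] : Prop :=
  ∀ v : ℕ → H, e.1.eval v = e.2.eval v

/-- `H` is a member of the quasivariety `Q(A)` generated by `A`: it satisfies every quasi-identity
valid in `A`. -/
def InQ (A : Type) [HeytingAlgebra A] (H : Type) [HeytingAlgebra H] : Prop :=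
  ∀ q : QId, q.Holds A → q.Holds H

/-- The quasivariety `Q(A)` is primitive: every subquasivariety of it (given by a set `Γ` of
quasi-identities) is the class of the members of `Q(A)` which satisfy a set `E` of identities. -/
def Primitive (A : Type) [HeytingAlgebra A] : Prop :=
  ∀ Γ : Set QId, ∃ E : Set (Fm × Fm), ∀ (H : Type) [HeytingAlgebra H], InQ A H →
    ((∀ q ∈ Γ, q.Holds H) ↔ ∀ e ∈ E, IdHolds e H)

/-- validity of quasi-identities in raw algebras -/
def RHolds {X : Type} (R : RA X) (q : QId) : Prop :=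
  ∀ v : ℕ → X, (∀ p ∈ q.prem, R.eval v p.1 = R.eval v p.2) →
    R.eval v q.concl.1 = R.eval v q.concl.2

theorem rholds_ofH {A : Type} [HeytingAlgebra A] (q : QId) : RHolds (ofH A) q ↔ q.Holds A := by
  unfold RHolds QId.Holds
  simp only [ofH_eval]

theorem sep_rholds {X Y : Type} {R : RA X} {R' : RA Y} (hs : Sep R R') {q : QId}
    (h : RHolds R' q) : RHolds R q := by
  intro v hv
  by_contra hne
  obtain ⟨f, hf, hne⟩ := hs _ _ hne
  apply hne
  rw [hf.eval, hf.eval]
  apply h
  intro p hp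
  rw [← hf.eval, ← hf.eval, hv p hp]

/-- The finite criterion. -/
def CritE (A : Type) [HeytingAlgebra A] (N : ℕ) : Prop :=
  ∀ m ≤ N, ∀ B : RA (Fin m), Sep B (ofH A) → ∀ h : Fin m → A, IsHom B (ofH A) h →
    ∀ x y : Fin m, h x ≠ h y → ∃ k : Fin m → Fin m, IsHom B B k ∧
      (∀ a b, h a = h b → k a = k b) ∧ k x ≠ k y

/-- The diagram of a finite algebra, as a list of equations. -/
def dgl {m : ℕ} (R : RA (Fin m)) : List (Fm × Fm) :=
  (List.finRange m).flatMap (fun i => (List.finRange m).flatMap fun j =>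
    [(Fm.var (R.inf i j), Fm.and (Fm.var i) (Fm.var j)),
     (Fm.var (R.sup i j), Fm.or (Fm.var i) (Fm.var j)),
     (Fm.var (R.imp i j), Fm.imp (Fm.var i) (Fm.var j))]) ++ [(Fm.var R.bot, Fm.bot)]

theorem forall_dgl {m : ℕ} (R : RA (Fin m)) (P : Fm × Fm → Prop) :
    (∀ p ∈ dgl R, P p) ↔
      (∀ i j : Fin m, P (Fm.var (R.inf i j), Fm.and (Fm.var i) (Fm.var j))) ∧
      (∀ i j : Fin m, P (Fm.var (R.sup i j), Fm.or (Fm.var i) (Fm.var j))) ∧
      (∀ i j : Fin m, P (Fm.var (R.imp i j), Fm.imp (Fm.var i) (Fm.var j))) ∧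
      P (Fm.var R.bot, Fm.bot) := by
  constructor
  · intro h
    refine ⟨fun i j => h _ ?_, fun i j => h _ ?_, fun i j => h _ ?_, h _ ?_⟩
    all_goals simp only [dgl, List.mem_append, List.mem_flatMap, List.mem_cons,
      List.not_mem_nil, or_false]
    · exact Or.inl ⟨i, List.mem_finRange i, j, List.mem_finRange j, Or.inl rfl⟩
    · exact Or.inl ⟨i, List.mem_finRange i, j, List.mem_finRange j, Or.inr (Or.inl rfl)⟩
    · exact Or.inl ⟨i, List.mem_finRange i, j, List.mem_finRange j, Or.inr (Or.inr rfl)⟩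
    · exact Or.inr trivial
  · rintro ⟨h1, h2, h3, h4⟩ p hp
    simp only [dgl, List.mem_append, List.mem_flatMap, List.mem_cons, List.not_mem_nil,
      or_false] at hp
    rcases hp with ⟨i, _, j, _, rfl | rfl | rfl⟩ | rfl
    · exact h1 i j
    · exact h2 i j
    · exact h3 i j
    · exact h4

theorem dgl_iff {m : ℕ} (R : RA (Fin m)) {Y : Type} (R' : RA Y) (w : ℕ → Y) :
    (∀ p ∈ dgl R, R'.eval w p.1 = R'.eval w p.2) ↔ IsHom R R' (fun i : Fin m => w i) := by
  rw [forall_dgl]
  exact ⟨fun ⟨h1, h2, h3, h4⟩ => ⟨h1, h2, h3, h4⟩, fun h => ⟨h.inf, h.sup, h.imp, h.bot⟩⟩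

/-- the canonical valuation in an algebra on `Fin m` -/
def idv {m : ℕ} (R : RA (Fin m)) : ℕ → Fin m := fun i => if h : i < m then ⟨i, h⟩ else R.bot

theorem idv_val {m : ℕ} (R : RA (Fin m)) (i : Fin m) : idv R i = i := by simp [idv]

theorem idv_hom {m : ℕ} (R : RA (Fin m)) : IsHom R R (fun i : Fin m => idv R i) := by
  simp only [idv_val]
  exact ⟨fun _ _ => rfl, fun _ _ => rfl, fun _ _ => rfl, rfl⟩

theorem sep_of_rholds {A : Type} [HeytingAlgebra A] {m : ℕ} (B : RA (Fin m))
    (h : ∀ q : QId, q.Holds A → RHolds B q) : Sep B (ofH A) := by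
  intro x y hxy
  by_contra hno
  push Not at hno
  have h1 : (⟨dgl B, (Fm.var x, Fm.var y)⟩ : QId).Holds A := by
    rw [← rholds_ofH]
    intro v hv
    exact hno _ ((dgl_iff B (ofH A) v).1 hv)
  have h2 := h _ h1 (idv B) ((dgl_iff B B _).2 (idv_hom B))
  apply hxy
  simpa [RA.eval, idv_val] using h2

/-! ### Heyting algebras from separated raw algebras -/

section mk

variable {A : Type} [HeytingAlgebra A] {X : Type} (R : RA X) (hs : Sep R (ofH A))

theorem eq_of_sep {R : RA X} (hs : Sep R (ofH A)) {x y : X}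
    (h : ∀ f : X → A, IsHom R (ofH A) f → f x = f y) : x = y := by
  by_contra hne
  obtain ⟨f, hf, h1⟩ := hs _ _ hne
  exact h1 (h f hf)

/-- A raw algebra separated by homomorphisms to a Heyting algebra is a Heyting algebra. -/
@[reducible] noncomputable def mkH : HeytingAlgebra X :=
  letI : Max X := ⟨R.sup⟩
  letI : Min X := ⟨R.inf⟩
  letI : LE X := ⟨fun x y => R.inf x y = x⟩
  letI : LT X := ⟨fun x y => R.inf x y = x ∧ ¬ R.inf y x = y⟩
  letI : Top X := ⟨R.top⟩
  letI : Bot X := ⟨R.bot⟩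
  letI : Compl X := ⟨fun x => R.imp x R.bot⟩
  letI : HImp X := ⟨R.imp⟩
  have key : ∀ x y : X, (∀ f : {f : X → A // IsHom R (ofH A) f}, f.1 x ≤ f.1 y) ↔
      R.inf x y = x := by
    intro x y
    constructor
    · intro h
      refine eq_of_sep hs fun f hf => ?_
      rw [hf.inf]
      exact inf_eq_left.2 (h ⟨f, hf⟩)
    · intro h f
      have h1 := f.2.inf x y
      rw [h] at h1
      exact inf_eq_left.1 h1.symm
  Function.Injective.heytingAlgebra
    (β := {f : X → A // IsHom R (ofH A) f} → A) (fun x f => f.1 x)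
    (fun x y hxy => eq_of_sep hs fun f hf => congrFun hxy ⟨f, hf⟩)
    (fun {x y} => key x y)
    (fun {x y} => by
      rw [lt_iff_le_not_ge]
      exact and_congr (key x y) (not_congr (key y x)))
    (fun a b => funext fun f => f.2.sup a b)
    (fun a b => funext fun f => f.2.inf a b)
    (funext fun f => (f.2.top).trans (ofH_top A))
    (funext fun f => f.2.bot)
    (fun a => funext fun f => by
      have h1 : f.1 (R.imp a R.bot) = f.1 a ⇨ f.1 R.bot := f.2.imp a R.bot
      have h2 : f.1 R.bot = ⊥ := f.2.bot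
      rw [h2] at h1
      exact h1.trans (himp_bot _))
    (fun a b => funext fun f => f.2.imp a b)

theorem mkH_eval (v : ℕ → X) (φ : Fm) : @Fm.eval X (mkH R hs) v φ = R.eval v φ := by
  induction φ with
  | var i => rfl
  | bot => rfl
  | and a b ha hb =>
    change R.inf (@Fm.eval X (mkH R hs) v a) (@Fm.eval X (mkH R hs) v b) = _
    rw [ha, hb]; rfl
  | or a b ha hb =>
    change R.sup (@Fm.eval X (mkH R hs) v a) (@Fm.eval X (mkH R hs) v b) = _
    rw [ha, hb]; rfl
  | imp a b ha hb =>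
    change R.imp (@Fm.eval X (mkH R hs) v a) (@Fm.eval X (mkH R hs) v b) = _
    rw [ha, hb]; rfl

theorem mkH_holds (q : QId) : @QId.Holds q X (mkH R hs) ↔ RHolds R q := by
  unfold QId.Holds RHolds
  simp only [mkH_eval]

theorem mkH_inQ : @InQ A _ X (mkH R hs) := by
  intro q hq
  rw [mkH_holds]
  exact sep_rholds hs ((rholds_ofH q).2 hq)

end mk

section image

variable {A : Type} [HeytingAlgebra A] {m : ℕ} {B : RA (Fin m)} {h : Fin m → A}

/-- the image of a homomorphism -/
def img (hh : IsHom B (ofH A) h) : RA (Set.range h) where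
  inf a b := ⟨a.1 ⊓ b.1, by
    obtain ⟨x, hx⟩ := a.2
    obtain ⟨y, hy⟩ := b.2
    exact ⟨B.inf x y, by rw [hh.inf, hx, hy]; rfl⟩⟩
  sup a b := ⟨a.1 ⊔ b.1, by
    obtain ⟨x, hx⟩ := a.2
    obtain ⟨y, hy⟩ := b.2
    exact ⟨B.sup x y, by rw [hh.sup, hx, hy]; rfl⟩⟩
  imp a b := ⟨a.1 ⇨ b.1, by
    obtain ⟨x, hx⟩ := a.2
    obtain ⟨y, hy⟩ := b.2
    exact ⟨B.imp x y, by rw [hh.imp, hx, hy]; rfl⟩⟩
  bot := ⟨⊥, B.bot, hh.bot⟩

theorem img_val (hh : IsHom B (ofH A) h) : IsHom (img hh) (ofH A) Subtype.val :=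
  ⟨fun _ _ => rfl, fun _ _ => rfl, fun _ _ => rfl, rfl⟩

theorem img_map (hh : IsHom B (ofH A) h) : IsHom B (img hh) (fun x => ⟨h x, x, rfl⟩) :=
  ⟨fun a b => Subtype.ext (hh.inf a b), fun a b => Subtype.ext (hh.sup a b),
    fun a b => Subtype.ext (hh.imp a b), Subtype.ext hh.bot⟩

theorem img_sep (hh : IsHom B (ofH A) h) : Sep (img hh) (ofH A) := fun _ _ hxy =>
  ⟨_, img_val hh, fun h1 => hxy (Subtype.ext h1)⟩

/-- the quasi-identity which says that no endomorphism of `B` which factors through `h` separates `x`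
and `y` -/
noncomputable def sepq (B : RA (Fin m)) (h : Fin m → A) (x y : Fin m) : QId := by
  classical
  exact ⟨dgl B ++ (((List.finRange m).flatMap fun i => (List.finRange m).filterMap fun j =>
    if h i = h j then some (Fm.var i, Fm.var j) else none)), (Fm.var x, Fm.var y)⟩

omit [HeytingAlgebra A] in
theorem sepq_prem (B : RA (Fin m)) (h : Fin m → A) (x y : Fin m) {Y : Type} (R' : RA Y)
    (v : ℕ → Y) : (∀ p ∈ (sepq B h x y).prem, R'.eval v p.1 = R'.eval v p.2) ↔
      IsHom B R' (fun i : Fin m => v i) ∧ ∀ i j : Fin m, h i = h j → v i = v j := by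
  classical
  rw [← dgl_iff]
  constructor
  · intro h1
    refine ⟨fun p hp => h1 p ?_, fun i j hij => h1 (Fm.var i, Fm.var j) ?_⟩
    · simp only [sepq, List.mem_append]
      exact Or.inl hp
    · simp only [sepq, List.mem_append, List.mem_flatMap, List.mem_filterMap]
      exact Or.inr ⟨i, List.mem_finRange i, j, List.mem_finRange j, by rw [if_pos hij]⟩
  · rintro ⟨h1, h2⟩ p hp
    simp only [sepq, List.mem_append, List.mem_flatMap, List.mem_filterMap] at hp
    rcases hp with hp | ⟨i, _, j, _, hp⟩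
    · exact h1 p hp
    · split_ifs at hp with hij
      simp only [Option.some.injEq] at hp
      subst hp
      exact h2 i j hij

omit [HeytingAlgebra A] in
theorem sepq_rholds (B : RA (Fin m)) (h : Fin m → A) (x y : Fin m) :
    RHolds B (sepq B h x y) ↔ ¬ ∃ k : Fin m → Fin m, IsHom B B k ∧
      (∀ a b, h a = h b → k a = k b) ∧ k x ≠ k y := by
  constructor
  · rintro h1 ⟨k, hk1, hk2, hk3⟩
    apply hk3
    have h2 := h1 (fun i => k (idv B i)) ((sepq_prem B h x y B _).2 ⟨by
      simp only [idv_val]; exact hk1, fun i j hij => by simp only [idv_val]; exact hk2 i j hij⟩)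
    simpa [sepq, RA.eval, idv_val] using h2
  · intro h1 v hv
    rw [sepq_prem] at hv
    by_contra hne
    exact h1 ⟨fun i => v i, hv.1, hv.2, hne⟩

theorem sepq_img (hh : IsHom B (ofH A) h) {x y : Fin m} (hxy : h x ≠ h y) :
    ¬ RHolds (img hh) (sepq B h x y) := by
  intro h1
  have hm : 0 < m := lt_of_le_of_lt (Nat.zero_le _) x.2
  have h2 := h1 (fun i => ⟨h (idv B i), _, rfl⟩) ((sepq_prem B h x y (img hh) _).2 ⟨by
    simp only [idv_val]; exact img_map hh, fun i j hij => by
      apply Subtype.ext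
      simp only [idv_val]
      exact hij⟩)
  apply hxy
  have h3 := congrArg Subtype.val h2
  simpa [sepq, RA.eval, idv_val] using h3

/-- identities of `B` hold in the image -/
theorem img_id (hh : IsHom B (ofH A) h) (v : ℕ → Set.range h) :
    ∃ w : ℕ → Fin m, ∀ φ : Fm, (img hh).eval v φ = ⟨h (B.eval w φ), _, rfl⟩ := by
  choose g hg using fun s : Set.range h => s.2
  refine ⟨fun i => g (v i), fun φ => ?_⟩
  have h1 := (img_map hh).eval (fun i => g (v i)) φ
  rw [h1]
  congr 1
  funext i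
  exact Subtype.ext (hg (v i)).symm

end image

variable {A : Type} [HeytingAlgebra A]

theorem critE_of_primitive (hP : Primitive A) (N : ℕ) : CritE A N := by
  intro m _ B hB h hh x y hxy
  by_contra hno
  obtain ⟨E, hE⟩ := hP {q | RHolds B q}
  have h1 := (@hE (Fin m) (mkH B hB) (mkH_inQ B hB)).1 (fun q hq => (mkH_holds B hB q).2 hq)
  have h2 : ∀ e ∈ E, @IdHolds e (Set.range h) (mkH (img hh) (img_sep hh)) := by
    intro e he v
    rw [mkH_eval, mkH_eval]
    obtain ⟨w, hw⟩ := img_id hh v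
    rw [hw, hw]
    have h3 := h1 e he w
    rw [mkH_eval, mkH_eval] at h3
    simp only [h3]
  have h3 := (@hE (Set.range h) (mkH (img hh) (img_sep hh)) (mkH_inQ _ _)).2 h2
    (sepq B h x y) ((sepq_rholds B h x y).2 hno)
  rw [mkH_holds] at h3
  exact sepq_img hh hxy h3

/-- The main construction: a set `E` of identities closed under the rules valid in `A`. -/
theorem core {n : ℕ} (e : A ≃ Fin n) (E : Fm → Fm → Prop) (hE : Equivalence E)
    (hand : ∀ a a' b b', E a a' → E b b' → E (Fm.and a b) (Fm.and a' b'))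
    (hor : ∀ a a' b b', E a a' → E b b' → E (Fm.or a b) (Fm.or a' b'))
    (himp : ∀ a a' b b', E a a' → E b b' → E (Fm.imp a b) (Fm.imp a' b'))
    (hQ : ∀ q : QId, q.Holds A → ∀ σ : ℕ → Fm, (∀ p ∈ q.prem, E (p.1.subst σ) (p.2.subst σ)) →
      E (q.concl.1.subst σ) (q.concl.2.subst σ))
    (a : ℕ → A) (ha : ∀ s t, E s t → s.eval a = t.eval a) (γ : QId)
    (hγ : ∀ σ : ℕ → Fm, (∀ p ∈ γ.prem, E (p.1.subst σ) (p.2.subst σ)) →
      E (γ.concl.1.subst σ) (γ.concl.2.subst σ))
    (h1 : ∀ p ∈ γ.prem, p.1.eval a = p.2.eval a) (h2 : γ.concl.1.eval a ≠ γ.concl.2.eval a)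
    (hcrit : CritE A (n ^ (n ^ n))) : False := by
  classical
  let _ : Fintype A := Fintype.ofEquiv _ e.symm
  have hcard : Fintype.card A = n := by
    rw [Fintype.card_congr e, Fintype.card_fin]
  let T : A → Fm := fun c => if h : ∃ s : Fm, s.eval a = c then h.choose else Fm.bot
  have hT : ∀ i, (T (a i)).eval a = a i := by
    intro i
    have h : ∃ s : Fm, s.eval a = a i := ⟨Fm.var i, rfl⟩
    simp only [T]
    rw [dif_pos h]
    exact h.choose_spec
  let τ : ℕ → Fm := fun i => if h : i < n then T (e.symm ⟨i, h⟩) else Fm.bot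
  obtain ⟨m, B, cl, hm, hs, hh, hcl⟩ := quot_exists
    (fun φ ψ => E (φ.subst τ) (ψ.subst τ))
    ⟨fun _ => hE.refl _, fun h => hE.symm h, fun h h' => hE.trans h h'⟩
    (fun a a' b b' h h' => hand _ _ _ _ h h')
    (fun a a' b b' h h' => hor _ _ _ _ h h')
    (fun a a' b b' h h' => himp _ _ _ _ h h')
    (K := (Fin n → A) → A)
    (fun φ v => φ.eval (fun i => if h : i < n then v ⟨i, h⟩ else ⊥))
    (fun φ ψ h => by
      have h3 : ∀ u : ℕ → A, (φ.subst (trunc n)).eval u = (ψ.subst (trunc n)).eval u := by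
        intro u
        rw [Fm.eval_subst, Fm.eval_subst]
        have h4 := congrFun h (fun i => u i)
        have h5 : (fun i => (trunc n i).eval u) =
            (fun i => if h : i < n then (fun i : Fin n => u i) ⟨i, h⟩ else ⊥) := by
          funext i
          unfold trunc
          split_ifs <;> rfl
        rw [h5]
        exact h4
      have h4 := hQ ⟨[], (φ.subst (trunc n), ψ.subst (trunc n))⟩ (fun u _ => h3 u) τ (by simp)
      simp only [Fm.subst_subst] at h4
      have h5 : (fun i => (trunc n i).subst τ) = τ := by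
        funext i
        unfold trunc
        split_ifs with hi
        · rfl
        · simp only [τ]
          rw [dif_neg hi]
          rfl
      rw [h5] at h4
      exact h4)
  have hm' : m ≤ n ^ (n ^ n) := by
    refine hm.trans ?_
    simp [hcard]
  choose rep hrep using hs
  have hrE : ∀ φ, E ((rep (cl φ)).subst τ) (φ.subst τ) := fun φ => (hcl _ _).1 (hrep _)
  have heval : ∀ (v : ℕ → Fin m) (φ : Fm), B.eval v φ = cl (φ.subst (fun i => rep (v i))) := by
    intro v φ
    rw [← fm_eval, hh.eval]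
    simp only [hrep]
  -- quasi-identities preserved by `E` are valid in `B`
  have hval : ∀ q : QId, (∀ σ : ℕ → Fm, (∀ p ∈ q.prem, E (p.1.subst σ) (p.2.subst σ)) →
      E (q.concl.1.subst σ) (q.concl.2.subst σ)) → RHolds B q := by
    intro q hq v hv
    rw [heval, heval, hcl, Fm.subst_subst, Fm.subst_subst]
    refine hq _ fun p hp => ?_
    have := hv p hp
    rw [heval, heval, hcl, Fm.subst_subst, Fm.subst_subst] at this
    exact this
  have hSep : Sep B (ofH A) := sep_of_rholds B fun q hq => hval q (hQ q hq)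
  let h : Fin m → A := fun b => ((rep b).subst τ).eval a
  have hcla : ∀ φ, h (cl φ) = (φ.subst τ).eval a := fun φ => ha _ _ (hrE φ)
  have hhom : IsHom B (ofH A) h := by
    refine ⟨fun x y => ?_, fun x y => ?_, fun x y => ?_, ?_⟩
    · have e1 : B.inf x y = cl (fm.inf (rep x) (rep y)) := by rw [hh.inf, hrep, hrep]
      rw [e1, hcla]; rfl
    · have e1 : B.sup x y = cl (fm.sup (rep x) (rep y)) := by rw [hh.sup, hrep, hrep]
      rw [e1, hcla]; rfl
    · have e1 : B.imp x y = cl (fm.imp (rep x) (rep y)) := by rw [hh.imp, hrep, hrep]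
      rw [e1, hcla]; rfl
    · have e1 : B.bot = cl fm.bot := by rw [hh.bot]
      rw [e1, hcla]; rfl
  let σ : ℕ → Fm := fun i => Fm.var (e (a i))
  have hσ : ∀ s : Fm, h (cl (s.subst σ)) = s.eval a := by
    intro s
    rw [hcla, Fm.eval_subst, Fm.eval_subst]
    congr 1
    funext i
    have e1 : τ (e (a i)) = T (a i) := by
      simp only [τ]
      rw [dif_pos (e (a i)).2]
      simp
    change (τ (e (a i))).eval a = a i
    rw [e1, hT]
  have hne : h (cl (γ.concl.1.subst σ)) ≠ h (cl (γ.concl.2.subst σ)) := by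
    rw [hσ, hσ]; exact h2
  obtain ⟨k, hk1, hk2, hk3⟩ := hcrit m hm' B hSep h hhom _ _ hne
  have hkσ : ∀ s : Fm, B.eval (fun i => k (cl (σ i))) s = k (cl (s.subst σ)) := by
    intro s
    have := (hk1.comp hh).eval σ s
    rw [fm_eval] at this
    exact this.symm
  apply hk3
  rw [← hkσ, ← hkσ]
  refine hval γ hγ _ fun p hp => ?_
  rw [hkσ, hkσ]
  apply hk2
  rw [hσ, hσ]
  exact h1 p hp

theorem eval_trunc {H : Type} [HeytingAlgebra H] (k : ℕ) (u : ℕ → H) (φ : Fm) :
    (φ.subst (trunc k)).eval u = φ.eval (fun i => if i < k then u i else ⊥) := by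
  rw [Fm.eval_subst]
  congr 1
  funext i
  unfold trunc
  split_ifs <;> rfl

theorem exists_bound_q (γ : QId) : ∃ k, (∀ p ∈ γ.prem, p.1.subst (trunc k) = p.1 ∧
    p.2.subst (trunc k) = p.2) ∧ γ.concl.1.subst (trunc k) = γ.concl.1 ∧
    γ.concl.2.subst (trunc k) = γ.concl.2 := by
  classical
  obtain ⟨k, hk⟩ := exists_bound_finset
    ((γ.prem.map Prod.fst).toFinset ∪ (γ.prem.map Prod.snd).toFinset ∪
      {γ.concl.1, γ.concl.2})
  refine ⟨k, fun p hp => ⟨hk k le_rfl _ ?_, hk k le_rfl _ ?_⟩, hk k le_rfl _ ?_,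
    hk k le_rfl _ ?_⟩
  · simp only [Finset.mem_union, List.mem_toFinset, List.mem_map]
    exact Or.inl (Or.inl ⟨p, hp, rfl⟩)
  · simp only [Finset.mem_union, List.mem_toFinset, List.mem_map]
    exact Or.inl (Or.inr ⟨p, hp, rfl⟩)
  · simp
  · simp

/-- A failure of a quasi-identity in a member of `Q(A)` is reflected in `A`. -/
theorem reflect {n : ℕ} (e : A ≃ Fin n) {H : Type} [HeytingAlgebra H] (hH : InQ A H) (γ : QId)
    (hγ : ¬ γ.Holds H) : ∃ (w : ℕ → H) (a : ℕ → A),
      (∀ s t : Fm, s.eval w = t.eval w → s.eval a = t.eval a) ∧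
      (∀ p ∈ γ.prem, p.1.eval a = p.2.eval a) ∧ γ.concl.1.eval a ≠ γ.concl.2.eval a := by
  classical
  let _ : Fintype A := Fintype.ofEquiv _ e.symm
  obtain ⟨k, hk1, hk2, hk3⟩ := exists_bound_q γ
  unfold QId.Holds at hγ
  push Not at hγ
  obtain ⟨w0, hw1, hw2⟩ := hγ
  let w : ℕ → H := fun i => if i < k then w0 i else ⊥
  let ext : (Fin k → A) → (ℕ → A) := fun v i => if h : i < k then v ⟨i, h⟩ else ⊥
  have hw : ∀ φ : Fm, (φ.subst (trunc k)).eval w = φ.eval w := by
    intro φ
    rw [eval_trunc]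
    congr 1
    funext i
    simp only [w]
    split_ifs <;> rfl
  have hw' : ∀ φ : Fm, (φ.subst (trunc k)).eval w0 = φ.eval w := fun φ => eval_trunc k w0 φ
  have hprem : ∀ p ∈ γ.prem, p.1.eval w = p.2.eval w := by
    intro p hp
    rw [← hw', ← hw', (hk1 p hp).1, (hk1 p hp).2]
    exact hw1 p hp
  have hconcl : γ.concl.1.eval w ≠ γ.concl.2.eval w := by
    rw [← hw', ← hw', hk2, hk3]
    exact hw2
  have key : ∃ v : Fin k → A, (∀ s t : Fm, s.eval w = t.eval w → s.eval (ext v) = t.eval (ext v)) ∧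
      γ.concl.1.eval (ext v) ≠ γ.concl.2.eval (ext v) := by
    by_contra hcon
    push Not at hcon
    have h3 : ∀ v : Fin k → A, ∃ p : Fm × Fm, p.1.eval w = p.2.eval w ∧
        (p.1.eval (ext v) = p.2.eval (ext v) →
          γ.concl.1.eval (ext v) = γ.concl.2.eval (ext v)) := by
      intro v
      by_cases h4 : ∀ s t : Fm, s.eval w = t.eval w → s.eval (ext v) = t.eval (ext v)
      · exact ⟨(Fm.bot, Fm.bot), rfl, fun _ => hcon v h4⟩
      · push Not at h4
        obtain ⟨s, t, h5, h6⟩ := h4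
        exact ⟨(s, t), h5, fun h7 => absurd h7 h6⟩
    choose P hP1 hP2 using h3
    have h4 : (⟨(Finset.univ : Finset (Fin k → A)).toList.map (fun v =>
        ((P v).1.subst (trunc k), (P v).2.subst (trunc k))),
        (γ.concl.1, γ.concl.2)⟩ : QId).Holds A := by
      intro u hu
      have h5 : ∀ φ : Fm, (φ.subst (trunc k)).eval u = φ.eval (ext (fun i => u i)) := by
        intro φ
        rw [eval_trunc]
        congr 1
      have h6 := hu _ (List.mem_map.2 ⟨fun i => u i, Finset.mem_toList.2 (Finset.mem_univ _), rfl⟩)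
      simp only [h5] at h6
      have h7 := hP2 (fun i => u i) h6
      rw [← h5, ← h5, hk2, hk3] at h7
      exact h7
    have h5 := hH _ h4 w (by
      intro p hp
      obtain ⟨v, _, rfl⟩ := List.mem_map.1 hp
      simp only [hw]
      exact hP1 v)
    exact hconcl h5
  obtain ⟨v, hv1, hv2⟩ := key
  exact ⟨w, ext v, hv1, fun p hp => hv1 _ _ (hprem p hp), hv2⟩

theorem primitive_of_crit {n : ℕ} (e : A ≃ Fin n) (hcrit : CritE A (n ^ (n ^ n))) :
    Primitive A := by
  intro Γ
  refine ⟨{p | ∀ (H : Type) [HeytingAlgebra H], InQ A H → (∀ q ∈ Γ, q.Holds H) → IdHolds p H},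
    fun H _ hH => ⟨fun h p hp => hp H hH h, fun hE γ hγ => ?_⟩⟩
  by_contra hfail
  obtain ⟨w, a, h1, h2, h3⟩ := reflect e hH γ hfail
  refine core e (fun s t => ∀ (H : Type) [HeytingAlgebra H], InQ A H → (∀ q ∈ Γ, q.Holds H) →
      IdHolds (s, t) H) ⟨?_, ?_, ?_⟩ ?_ ?_ ?_ ?_ a ?_ γ ?_ h2 h3 hcrit
  · exact fun s H _ _ _ v => rfl
  · exact fun h H _ h4 h5 v => (h H h4 h5 v).symm
  · exact fun h h' H _ h4 h5 v => (h H h4 h5 v).trans (h' H h4 h5 v)
  · intro a a' b b' h h' H _ h4 h5 v
    have e1 := h H h4 h5 v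
    have e2 := h' H h4 h5 v
    simp only [Fm.eval] at e1 e2 ⊢
    rw [e1, e2]
  · intro a a' b b' h h' H _ h4 h5 v
    have e1 := h H h4 h5 v
    have e2 := h' H h4 h5 v
    simp only [Fm.eval] at e1 e2 ⊢
    rw [e1, e2]
  · intro a a' b b' h h' H _ h4 h5 v
    have e1 := h H h4 h5 v
    have e2 := h' H h4 h5 v
    simp only [Fm.eval] at e1 e2 ⊢
    rw [e1, e2]
  · intro q hq σ hσ H _ h4 h5 v
    simp only [Fm.eval_subst]
    refine h4 q hq _ fun p hp => ?_
    have := hσ p hp H h4 h5 v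
    simpa only [Fm.eval_subst] using this
  · intro s t h
    exact h1 s t (hE (s, t) h w)
  · intro σ hσ H _ h4 h5 v
    simp only [Fm.eval_subst]
    refine h5 γ hγ _ fun p hp => ?_
    have := hσ p hp H h4 h5 v
    simpa only [Fm.eval_subst] using this

theorem primitive_iff {n : ℕ} (e : A ≃ Fin n) : Primitive A ↔ CritE A (n ^ (n ^ n)) :=
  ⟨fun h => critE_of_primitive h _, primitive_of_crit e⟩

end Pool.Agent.Q217.Prim
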