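import Pool.Agent.Q217.Prim.Core

/-!
# The finite criterion is decidable
-/

set_option autoImplicit false

namespace Pool.Agent.Q217.Prim

open Pool.Agent.H877R3.HSC RA

def CritEN (x : List ℕ) : Prop :=
  ∀ m < xM x + 1,
  ∀ bi < m ^ (m * m), ∀ bs < m ^ (m * m), ∀ bp < m ^ (m * m), ∀ bb < m,
  SepN m (opc bi m) (opc bs m) (opc bp m) bb (xn x) (xi x) (xs x) (xp x) (xb x) →
  ∀ h < xn x ^ m,
  HomN m (opc bi m) (opc bs m) (opc bp m) bb (xi x) (xs x) (xp x) (xb x)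
    (fun a => dig h (xn x) a) →
  ∀ y < m, ∀ z < m, ¬ dig h (xn x) y = dig h (xn x) z →
  ∃ k < m ^ m, HomN m (opc bi m) (opc bs m) (opc bp m) bb (opc bi m) (opc bs m) (opc bp m) bb
    (fun a => dig k m a) ∧
    (∀ a < m, ∀ b < m, dig h (xn x) a = dig h (xn x) b → dig k m a = dig k m b) ∧
    ¬ dig k m y = dig k m z

open Fo in
def critEF : Bf :=
  all 0 (Tm.add M (Tm.c 1)) fun m =>
  all 1 (Tm.pow m (Tm.mul m m)) fun bi => all 2 (Tm.pow m (Tm.mul m m)) fun bs =>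
  all 3 (Tm.pow m (Tm.mul m m)) fun bp => all 4 m fun bb =>
  Bf.imp (sep 5 m (opT bi m) (opT bs m) (opT bp m) bb n iT sT pT b0)
  (all 5 (Tm.pow n m) fun h =>
  Bf.imp (hom 6 m (opT bi m) (opT bs m) (opT bp m) bb iT sT pT b0 (fun a => digT h n a))
  (all 6 m fun y => all 7 m fun z => Bf.imp (Bf.not (Bf.eq (digT h n y) (digT h n z)))
  (ex 8 (Tm.pow m m) fun k => Bf.and
    (hom 9 m (opT bi m) (opT bs m) (opT bp m) bb (opT bi m) (opT bs m) (opT bp m) bb
      (fun a => digT k m a))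
    (Bf.and (all 9 m fun a => all 10 m fun b => Bf.imp (Bf.eq (digT h n a) (digT h n b))
        (Bf.eq (digT k m a) (digT k m b)))
      (Bf.not (Bf.eq (digT k m y) (digT k m z)))))))

set_option maxRecDepth 100000 in
theorem critEF_holds (x : List ℕ) : critEF.holds x [] ↔ CritEN x := by
  simp only [critEF, Fo.hom, Fo.sep, Fo.all, Fo.ex, Fo.opT, Fo.digT, Fo.n,
    Fo.b0, Fo.iT, Fo.sT, Fo.pT, Fo.P, Fo.M, Bf.holds, Tm.ev, List.nil_append, List.cons_append,
    List.getD_cons_zero, List.getD_cons_succ, Nat.reduceAdd]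
  rfl

variable {A : Type} [HeytingAlgebra A] {n : ℕ} (e : A ≃ Fin n)

/-- separation by homomorphisms to `A` and to its copy on `Fin n` -/
theorem sep_toRA {X : Type} (B : RA X) : Sep B (ofH A) ↔ Sep B (toRA e) := by
  constructor
  · intro h x y hxy
    obtain ⟨f, hf, h1⟩ := h x y hxy
    exact ⟨_, (isHom_toRA e).comp hf, fun h2 => h1 (e.injective h2)⟩
  · intro h x y hxy
    obtain ⟨f, hf, h1⟩ := h x y hxy
    exact ⟨_, (isHom_toRA_symm e).comp hf, fun h2 => h1 (e.symm.injective h2)⟩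

theorem critEN_iff : CritEN (tables e) ↔ CritE A (n ^ (n ^ n)) := by
  have hn : 0 < n := lt_of_le_of_lt (Nat.zero_le _) (e ⊥).2
  have rA := rep_tables e
  constructor
  · intro hc m hm B hB h hh x y hxy
    have hm0 : 0 < m := lt_of_le_of_lt (Nat.zero_le _) x.2
    obtain ⟨bi, hbi, bs, hbs, bp, hbp, bb, hbb, rB⟩ := rep_code B
    obtain ⟨c, hc1, hc2⟩ := exists_dig m n (fun a => if ha : a < m then (e (h ⟨a, ha⟩) : ℕ) else 0)
      (fun i hi => by simp [hi])
    have hc3 : ∀ a : Fin m, dig c n a = e (h a) := fun a => by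
      rw [hc2 a a.2, dif_pos a.2]
    have h1 := hc m (Nat.lt_succ_of_le hm) bi hbi bs hbs bp hbp bb hbb
      ((sepN_iff rB rA).2 ((sep_toRA e B).1 hB)) c hc1
      ((homN_iff rB rA (fun a => e (h a)) _ hc3).2 ((isHom_toRA e).comp hh)) x x.2 y y.2
      (by rw [xn_tables, hc3, hc3]; exact fun h2 => hxy (e.injective (Fin.ext h2)))
    obtain ⟨k, hk, h2, h3, h4⟩ := h1
    refine ⟨fun a => ⟨dig k m a, dig_lt hm0 _ _⟩, (homN_iff rB rB _ _ fun _ => rfl).1 h2,
      fun a b hab => ?_, fun h5 => h4 (congrArg Fin.val h5)⟩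
    apply Fin.ext
    refine h3 a a.2 b b.2 ?_
    rw [xn_tables, hc3, hc3, hab]
  · intro hc m hm bi hbi bs hbs bp hbp bb hbb h1 c hc1 h2 x hx y hy hxy
    have hm0 : 0 < m := lt_of_le_of_lt (Nat.zero_le _) hbb
    obtain ⟨B, rB⟩ := rep_decode bi bs bp bb hbb
    have h3 : Sep B (ofH A) := (sep_toRA e B).2 ((sepN_iff rB rA).1 h1)
    have h4 := (homN_iff rB rA (fun a => (⟨dig c n a, dig_lt hn _ _⟩ : Fin n)) _
      (fun _ => rfl)).1 h2
    obtain ⟨k, hk1, hk2, hk3⟩ := hc m (Nat.le_of_lt_succ hm) B h3 _ ((isHom_toRA_symm e).comp h4)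
      ⟨x, hx⟩ ⟨y, hy⟩ (fun h5 => hxy (congrArg Fin.val (e.symm.injective h5)))
    obtain ⟨kc, hkc, hkd⟩ := exists_dig m m (fun a => if ha : a < m then (k ⟨a, ha⟩ : ℕ) else 0)
      (fun i hi => by simp [hi])
    have hkd' : ∀ a : Fin m, dig kc m a = k a := fun a => by
      rw [hkd a a.2, dif_pos a.2]
    refine ⟨kc, hkc, (homN_iff rB rB k _ hkd').2 hk1, fun a ha b hb hab => ?_, ?_⟩
    · have h5 := hk2 ⟨a, ha⟩ ⟨b, hb⟩ (by
        apply congrArg
        exact Fin.ext hab)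
      have e1 := hkd' ⟨a, ha⟩
      have e2 := hkd' ⟨b, hb⟩
      simp only at e1 e2
      rw [e1, e2, h5]
    · have e1 := hkd' ⟨x, hx⟩
      have e2 := hkd' ⟨y, hy⟩
      simp only at e1 e2
      rw [e1, e2]
      exact fun h5 => hk3 (Fin.ext h5)

/-- A primitive recursive function which decides the criterion. -/
theorem exists_decision : ∃ f : List ℕ → Bool, Primrec f ∧
    ∀ (A : Type) [HeytingAlgebra A] (n : ℕ) (e : A ≃ Fin n),
      f (tables e) = true ↔ CritE A (n ^ (n ^ n)) := by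
  obtain ⟨inst, h⟩ := critEF.primrec.comp (Primrec.id.pair (Primrec.const ([] : List ℕ)))
  refine ⟨_, h, fun A _ n e => ?_⟩
  rw [← critEN_iff e, ← critEF_holds]
  simp

end Pool.Agent.Q217.Prim
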