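import Pool.Agent.Q217.Prim.Core

/-!
# Hereditary structural completeness of the deductive system of a finite Heyting algebra
-/

set_option autoImplicit false

namespace Pool.Agent.Q217.Prim

open Pool.Agent.H877R3.HSC RA

/-- The deductive system `⊢_A` of a finite Heyting algebra `A`: `Γ ⊢_A φ` iff every valuation in `A`
which sends all members of `Γ` to `1` sends `φ` to `1`. -/
def matrixSystem (A : Type) [HeytingAlgebra A] [Finite A] : DedSys where
  der Γ φ := ∀ v : ℕ → A, (∀ C ∈ Γ, C.eval v = ⊤) → φ.eval v = ⊤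
  ax _ φ h v hv := hv φ h
  cut _ _ _ h1 h2 v hv := h2 v fun B hB => h1 B hB v hv
  finitary Γ φ h := by
    let _ : TopologicalSpace A := ⊥
    have : DiscreteTopology A := ⟨rfl⟩
    have hcont : ∀ C : Fm, Continuous (fun v : ℕ → A => C.eval v) := by
      intro C
      induction C with
      | var i => exact continuous_apply i
      | bot => exact continuous_const
      | and a b ha hb =>
        exact (continuous_of_discreteTopology (f := fun p : A × A => p.1 ⊓ p.2)).comp
          (ha.prodMk hb)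
      | or a b ha hb =>
        exact (continuous_of_discreteTopology (f := fun p : A × A => p.1 ⊔ p.2)).comp
          (ha.prodMk hb)
      | imp a b ha hb =>
        exact (continuous_of_discreteTopology (f := fun p : A × A => p.1 ⇨ p.2)).comp
          (ha.prodMk hb)
    have hclosed : ∀ C : Fm, IsClosed {v : ℕ → A | C.eval v = ⊤} := fun C =>
      (isClosed_discrete ({⊤} : Set A)).preimage (hcont C)
    have hclosed' : IsClosed {v : ℕ → A | φ.eval v ≠ ⊤} :=
      (isClosed_discrete ({⊤}ᶜ : Set A)).preimage (hcont φ)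
    have hcomp : IsCompact {v : ℕ → A | φ.eval v ≠ ⊤} := hclosed'.isCompact
    obtain ⟨t, ht⟩ := hcomp.elim_finite_subfamily_closed
      (fun C : Γ => {v : ℕ → A | C.1.eval v = ⊤}) (fun C => hclosed C.1) (by
        rw [Set.eq_empty_iff_forall_notMem]
        rintro v ⟨hv1, hv2⟩
        rw [Set.mem_iInter] at hv2
        exact hv1 (h v fun C hC => hv2 ⟨C, hC⟩))
    refine ⟨Subtype.val '' (t : Set Γ), ?_, (t.finite_toSet).image _, fun v hv => ?_⟩
    · rintro _ ⟨C, _, rfl⟩
      exact C.2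
    · by_contra hne
      have h1 : v ∈ ({v : ℕ → A | φ.eval v ≠ ⊤} ∩ ⋂ i ∈ t, {v : ℕ → A | i.1.eval v = ⊤}) := by
        refine ⟨hne, ?_⟩
        rw [Set.mem_iInter₂]
        intro C hC
        exact hv _ ⟨C, hC, rfl⟩
      rw [ht] at h1
      exact h1
  structural Γ φ σ h v hv := by
    rw [Fm.eval_subst]
    refine h _ fun C hC => ?_
    rw [← Fm.eval_subst]
    exact hv _ ⟨C, hC, rfl⟩

variable {A : Type} [HeytingAlgebra A]

theorem iff_eval (s t : Fm) (v : ℕ → A) : (Fm.iff s t).eval v = ⊤ ↔ s.eval v = t.eval v := by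
  constructor
  · intro h
    have := (good_ofH A).eq (s.eval v) (t.eval v) (by
      rw [ofH_top]
      exact h)
    exact this
  · intro h
    simp [Fm.iff, Fm.eval, h]

theorem valid_of_der [Finite A] {Γ : Finset Fm} {φ : Fm} (h : (matrixSystem A).der (↑Γ) φ) :
    (ofH A).Valid Γ φ := by
  intro v hv
  rw [ofH_eval, ofH_top]
  refine h v fun C hC => ?_
  have := hv C (by exact_mod_cast hC)
  rwa [ofH_eval, ofH_top] at this

theorem critE_of_hsc [Finite A] (hS : (matrixSystem A).HereditarilyStructurallyComplete) (N : ℕ) :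
    CritE A N := by
  classical
  intro m _ B hB h hh x y hxy
  by_contra hno
  have hgB : Good B := hB.good (good_ofH A)
  have hgI : Good (img hh) := (img_sep hh).good (good_ofH A)
  let Γ0 : Finset Fm := ((sepq B h x y).prem.map fun p => Fm.iff p.1 p.2).toFinset
  let β0 : Fm := Fm.iff (Fm.var x) (Fm.var y)
  have hgood : ∀ {X : Type} (R : RA X), Good R → (R.Valid Γ0 β0 ↔ RHolds R (sepq B h x y)) := by
    intro X R hR
    have hiff : ∀ (v : ℕ → X) (s t : Fm), R.eval v (Fm.iff s t) = R.top ↔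
        R.eval v s = R.eval v t := by
      intro v s t
      rw [eval_iff]
      exact ⟨hR.eq _ _, fun h1 => by rw [h1, hR.refl]⟩
    refine forall_congr' fun v => ?_
    simp only [Γ0, List.mem_toFinset, List.mem_map, forall_exists_index, and_imp,
      forall_apply_eq_imp_iff₂, hiff]
    exact imp_congr Iff.rfl (hiff v _ _)
  have hext : (sys2 B (img hh)).Extends (matrixSystem A) := by
    intro Γ φ h1
    obtain ⟨Δ, h2, h3, h4⟩ := (matrixSystem A).finitary Γ φ h1
    refine ⟨h3.toFinset, by simpa using h2, ?_, ?_⟩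
    · refine hB.valid (valid_of_der ?_)
      simpa using h4
    · refine (img_sep hh).valid (valid_of_der ?_)
      simpa using h4
  have himg : ∀ φ : Fm, B.Valid ∅ φ → (img hh).Valid ∅ φ := by
    intro φ h1 v _
    obtain ⟨w, hw⟩ := img_id hh v
    rw [hw, h1 w (by simp)]
    exact (img_map hh).top
  have hadm : (sys2 B (img hh)).Admissible Γ0 β0 := by
    intro σ hσ
    have h1 : B.Valid ∅ (β0.subst σ) := by
      intro v _
      rw [eval_subst]
      refine (hgood B hgB).2 ((sepq_rholds B h x y).2 hno) _ fun C hC => ?_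
      obtain ⟨Δ, h2, h3, _⟩ := hσ C hC
      have : Δ = ∅ := by simpa using h2
      subst this
      rw [← eval_subst]
      exact h3 v (by simp)
    exact ⟨∅, by simp, h1, himg _ h1⟩
  obtain ⟨Δ, h1, _, h2⟩ := hS _ hext _ _ hadm
  refine sepq_img hh hxy ((hgood _ hgI).1 fun v hv => h2 v fun C hC => hv C ?_)
  exact_mod_cast h1 hC

theorem hsc_of_critE [Finite A] {n : ℕ} (e : A ≃ Fin n) (hcrit : CritE A (n ^ (n ^ n))) :
    (matrixSystem A).HereditarilyStructurallyComplete := by
  classical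
  let _ : Fintype A := Fintype.ofEquiv _ e.symm
  intro S hS Γ β hadm
  by_contra hno
  have dA : ∀ (Γ Δ : Set Fm) (θ : Fm),
      (∀ v : ℕ → A, (∀ C ∈ Δ, C.eval v = ⊤) → θ.eval v = ⊤) → (∀ C ∈ Δ, S.der Γ C) →
      S.der Γ θ := fun Γ Δ θ h hΔ => S.cut Γ Δ θ hΔ (hS Δ θ h)
  obtain ⟨k1, hk1⟩ := exists_bound_finset Γ
  obtain ⟨k2, hk2⟩ := exists_bound β
  obtain ⟨k, hk, hkβ⟩ : ∃ k, (∀ φ ∈ Γ, φ.subst (trunc k) = φ) ∧ β.subst (trunc k) = β :=
    ⟨max k1 k2, hk1 _ (le_max_left _ _), hk2 _ (le_max_right _ _)⟩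
  let ext : (Fin k → A) → (ℕ → A) := fun v i => if h : i < k then v ⟨i, h⟩ else ⊥
  have key : ∃ v : Fin k → A, (∀ φ : Fm, S.der (↑Γ) φ → φ.eval (ext v) = ⊤) ∧
      β.eval (ext v) ≠ ⊤ := by
    by_contra hcon
    push Not at hcon
    have h3 : ∀ v : Fin k → A, ∃ φ : Fm, S.der (↑Γ) φ ∧
        (φ.eval (ext v) = ⊤ → β.eval (ext v) = ⊤) := by
      intro v
      by_cases h4 : ∀ φ : Fm, S.der (↑Γ) φ → φ.eval (ext v) = ⊤
      · exact ⟨Fm.imp Fm.bot Fm.bot, dA _ ∅ _ (fun v _ => by simp [Fm.eval]) (by simp),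
          fun _ => hcon v h4⟩
      · push Not at h4
        obtain ⟨φ, h5, h6⟩ := h4
        exact ⟨φ, h5, fun h7 => absurd h7 h6⟩
    choose P hP1 hP2 using h3
    apply hno
    refine dA _ (Set.range fun v => (P v).subst (trunc k)) _ ?_ ?_
    · intro u hu
      have h5 : ∀ φ : Fm, (φ.subst (trunc k)).eval u = φ.eval (ext (fun i => u i)) := by
        intro φ
        rw [eval_trunc]
        congr 1
      have h6 := hu _ ⟨fun i => u i, rfl⟩
      rw [h5] at h6
      have h7 := hP2 (fun i => u i) h6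
      rw [← h5, hkβ] at h7
      exact h7
    · rintro _ ⟨v, rfl⟩
      have h4 := S.structural _ _ (trunc k) (hP1 v)
      have h5 : Fm.subst (trunc k) '' (↑Γ : Set Fm) = ↑Γ := by
        ext φ
        constructor
        · rintro ⟨ψ, hψ, rfl⟩
          rw [hk ψ (by exact_mod_cast hψ)]
          exact hψ
        · intro hφ
          exact ⟨φ, hφ, hk φ (by exact_mod_cast hφ)⟩
      rw [h5] at h4
      exact h4
  obtain ⟨v, hv1, hv2⟩ := key
  let T : Fm := Fm.imp Fm.bot Fm.bot
  have hTe : ∀ u : ℕ → A, T.eval u = ⊤ := fun u => by simp [T, Fm.eval]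
  have hET : ∀ C : Fm, S.der ∅ (Fm.iff C T) ↔ S.der ∅ C := by
    intro C
    constructor
    · intro h
      refine dA ∅ {Fm.iff C T} C (fun u hu => ?_) (by simpa using h)
      have := (iff_eval C T u).1 (hu _ rfl)
      rw [this, hTe]
    · intro h
      refine dA ∅ {C} _ (fun u hu => ?_) (by simpa using h)
      rw [iff_eval, hTe]
      exact hu _ rfl
  -- consequences of equations
  have dE : ∀ (Δ : Set (Fm × Fm)) (s t : Fm),
      (∀ u : ℕ → A, (∀ p ∈ Δ, p.1.eval u = p.2.eval u) → s.eval u = t.eval u) →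
      (∀ p ∈ Δ, S.der ∅ (Fm.iff p.1 p.2)) → S.der ∅ (Fm.iff s t) := by
    intro Δ s t h1 h2
    refine dA ∅ ((fun p : Fm × Fm => Fm.iff p.1 p.2) '' Δ) _ (fun u hu => ?_) ?_
    · rw [iff_eval]
      refine h1 u fun p hp => ?_
      rw [← iff_eval]
      exact hu _ ⟨p, hp, rfl⟩
    · rintro _ ⟨p, hp, rfl⟩
      exact h2 p hp
  refine core e (fun s t => S.der ∅ (Fm.iff s t)) ⟨?_, ?_, ?_⟩ ?_ ?_ ?_ ?_ (ext v) ?_
    ⟨Γ.toList.map (fun C => (C, T)), (β, T)⟩ ?_ ?_ ?_ hcrit
  · exact fun s => dE ∅ _ _ (fun _ _ => rfl) (by simp)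
  · intro s t h
    exact dE {(s, t)} _ _ (fun u hu => (hu _ rfl).symm) (by simpa using h)
  · intro s t r h h'
    refine dE {(s, t), (t, r)} _ _ (fun u hu => ?_) (by
      intro p hp
      rcases hp with rfl | rfl
      · exact h
      · exact h')
    have h1 := hu (s, t) (Or.inl rfl)
    have h2 := hu (t, r) (Or.inr rfl)
    exact h1.trans h2
  · intro a a' b b' h h'
    refine dE {(a, a'), (b, b')} _ _ (fun u hu => ?_) (by
      intro p hp
      rcases hp with rfl | rfl
      · exact h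
      · exact h')
    have h1 := hu (a, a') (Or.inl rfl)
    have h2 := hu (b, b') (Or.inr rfl)
    simp only [Fm.eval] at h1 h2 ⊢
    rw [h1, h2]
  · intro a a' b b' h h'
    refine dE {(a, a'), (b, b')} _ _ (fun u hu => ?_) (by
      intro p hp
      rcases hp with rfl | rfl
      · exact h
      · exact h')
    have h1 := hu (a, a') (Or.inl rfl)
    have h2 := hu (b, b') (Or.inr rfl)
    simp only [Fm.eval] at h1 h2 ⊢
    rw [h1, h2]
  · intro a a' b b' h h'
    refine dE {(a, a'), (b, b')} _ _ (fun u hu => ?_) (by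
      intro p hp
      rcases hp with rfl | rfl
      · exact h
      · exact h')
    have h1 := hu (a, a') (Or.inl rfl)
    have h2 := hu (b, b') (Or.inr rfl)
    simp only [Fm.eval] at h1 h2 ⊢
    rw [h1, h2]
  · intro q hq σ hσ
    refine dE {p | ∃ p' ∈ q.prem, p = (p'.1.subst σ, p'.2.subst σ)} _ _ (fun u hu => ?_) ?_
    · rw [Fm.eval_subst, Fm.eval_subst]
      refine hq _ fun p hp => ?_
      rw [← Fm.eval_subst, ← Fm.eval_subst]
      exact hu _ ⟨p, hp, rfl⟩
    · rintro _ ⟨p, hp, rfl⟩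
      exact hσ p hp
  · intro s t h
    rw [← iff_eval]
    exact hv1 _ (S.mono (Set.empty_subset _) h)
  · intro σ hσ
    have h1 : S.der ∅ (β.subst σ) := by
      refine hadm σ fun C hC => ?_
      have h2 := hσ (C, T) (List.mem_map.2 ⟨C, Finset.mem_toList.2 hC, rfl⟩)
      exact (hET (C.subst σ)).1 h2
    exact (hET (β.subst σ)).2 h1
  · intro p hp
    obtain ⟨C, hC, rfl⟩ := List.mem_map.1 hp
    simp only
    rw [hTe]
    exact hv1 C (S.ax _ _ (by exact_mod_cast Finset.mem_toList.1 hC))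
  · simp only
    rw [hTe]
    exact hv2

theorem hsc_iff [Finite A] {n : ℕ} (e : A ≃ Fin n) :
    (matrixSystem A).HereditarilyStructurallyComplete ↔ CritE A (n ^ (n ^ n)) :=
  ⟨fun h => critE_of_hsc h _, hsc_of_critE e⟩

end Pool.Agent.Q217.Prim
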